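import Mathlib

open Filter Topology MeasureTheory Complex Set
open scoped Real ComplexConjugate

namespace Pool.Agent.H.MP_559b1d_an

/-- arc length parametrisation of the boundary of the square with vertices `±1 ± i`:
side `k` is `s ↦ i^k (1 + s i)`, `-1 ≤ s ≤ 1` (positive orientation) -/
noncomputable def γ (p : Fin 4 × ℝ) : ℂ := I ^ (p.1 : ℕ) * (1 + p.2 * I)

/-- unit tangent, the derivative of `γ` in `s` -/
noncomputable def τ (p : Fin 4 × ℝ) : ℂ := I ^ (p.1 : ℕ) * I

/-- arc length measure in the parametrisation -/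
noncomputable def μ : Measure (Fin 4 × ℝ) := Measure.count.prod (volume.restrict (Ioo (-1) 1))

instance : IsFiniteMeasure μ := by
  unfold μ
  have : IsFiniteMeasure (volume.restrict (Ioo (-1 : ℝ) 1)) := ⟨by simp⟩
  infer_instance

lemma cγ : Continuous γ := by
  unfold γ
  have : Continuous fun p : Fin 4 × ℝ => I ^ (p.1 : ℕ) :=
    (continuous_of_discreteTopology (f := fun k : Fin 4 => I ^ (k : ℕ))).comp continuous_fst
  fun_prop

lemma cτ : Continuous τ := by
  unfold τ
  have : Continuous fun p : Fin 4 × ℝ => I ^ (p.1 : ℕ) :=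
    (continuous_of_discreteTopology (f := fun k : Fin 4 => I ^ (k : ℕ))).comp continuous_fst
  fun_prop

lemma nτ (p : Fin 4 × ℝ) : ‖τ p‖ = 1 := by simp [τ]

lemma ae_mem : ∀ᵐ p ∂μ, p.2 ∈ Ioo (-1 : ℝ) 1 := by
  unfold μ
  refine (Measure.ae_prod_iff_ae_ae (measurableSet_Ioo.preimage measurable_snd)).2 ?_
  exact .of_forall fun k => ae_restrict_mem measurableSet_Ioo

lemma int_eq {F : Fin 4 × ℝ → ℂ} (hF : Integrable F μ) :
    ∫ p, F p ∂μ = ∑ k, ∫ s in (-1 : ℝ)..1, F (k, s) := by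
  unfold μ at *
  rw [integral_prod _ hF, integral_count]
  refine Finset.sum_congr rfl fun k _ => ?_
  rw [intervalIntegral.integral_of_le (by norm_num), integral_Ioc_eq_integral_Ioo]

lemma int_bd {F : Fin 4 × ℝ → ℂ} (hF : AEStronglyMeasurable F μ) (C : ℝ)
    (h : ∀ p, p.2 ∈ Ioo (-1 : ℝ) 1 → ‖F p‖ ≤ C) : Integrable F μ :=
  (integrable_const C).mono' hF (ae_mem.mono h)

lemma seg' (k : Fin 4) {w u : ℂ} (hu : u ≠ 0) {a b : ℝ} (hab : a ≤ b)
    (h : ∀ r ∈ Icc a b, u * (γ (k, r) - w) ∈ slitPlane) :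
    ∫ r in a..b, τ (k, r) / (γ (k, r) - w) =
      log (u * (γ (k, b) - w)) - log (u * (γ (k, a) - w)) := by
  have hne : ∀ r ∈ Icc a b, γ (k, r) - w ≠ 0 := fun r hr e =>
    slitPlane_ne_zero (h r hr) (by rw [e, mul_zero])
  refine intervalIntegral.integral_eq_sub_of_hasDerivAt (f := fun r => log (u * (γ (k, r) - w)))
    (fun r hr => ?_) (ContinuousOn.intervalIntegrable ?_)
  · rw [uIcc_of_le hab] at hr
    have h1 : HasDerivAt (fun r : ℝ => u * (γ (k, r) - w)) (u * τ (k, r)) r := by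
      have := ((((hasDerivAt_id r).ofReal_comp.mul_const I).const_add 1).const_mul
        (I ^ (k : ℕ))).sub_const w |>.const_mul u
      simpa [γ, τ] using! this
    have h2 := h1.clog_real (h r hr)
    rwa [mul_div_mul_left _ _ hu] at h2
  · rw [uIcc_of_le hab]
    exact (cτ.comp (by fun_prop)).continuousOn.div
      ((cγ.comp (by fun_prop)).sub continuous_const).continuousOn hne

lemma seg (k : Fin 4) {w u : ℂ} (hu : u ≠ 0)
    (h : ∀ r ∈ Icc (-1 : ℝ) 1, u * (γ (k, r) - w) ∈ slitPlane) :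
    ∫ r in (-1 : ℝ)..1, τ (k, r) / (γ (k, r) - w) =
      log (u * (γ (k, 1) - w)) - log (u * (γ (k, -1) - w)) := seg' k hu (by norm_num) h

lemma c01 : γ (1, -1) = γ (0, 1) := by simp [γ]; ring_nf; simp; ring
lemma c12 : γ (2, -1) = γ (1, 1) := by simp [γ]; ring_nf; simp; ring
lemma c23 : γ (3, -1) = γ (2, 1) := by
  simp [γ, pow_succ]; ring_nf; simp; ring
lemma c30 : γ (0, -1) = γ (3, 1) := by
  simp [γ, pow_succ]; ring_nf; simp; ring

lemma g0 (r : ℝ) : γ (0, r) = ⟨1, r⟩ := by simp [γ, Complex.ext_iff]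
lemma g1 (r : ℝ) : γ (1, r) = ⟨-r, 1⟩ := by simp [γ, Complex.ext_iff]
lemma g2 (r : ℝ) : γ (2, r) = ⟨-1, -r⟩ := by simp [γ, Complex.ext_iff]
lemma g3 (r : ℝ) : γ (3, r) = ⟨r, -1⟩ := by simp [γ, Complex.ext_iff, pow_succ]

lemma wind_out {w u : ℂ} (hu : u ≠ 0)
    (h : ∀ k, ∀ r ∈ Icc (-1 : ℝ) 1, u * (γ (k, r) - w) ∈ slitPlane) :
    ∑ k, ∫ r in (-1 : ℝ)..1, τ (k, r) / (γ (k, r) - w) = 0 := by
  simp only [Fin.sum_univ_four, seg _ hu (h _), c01, c12, c23, c30]
  ring

lemma log_neg_pos {z : ℂ} (h : 0 < z.im) : log (-z) = log z - π * I := by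
  simp only [Complex.log, norm_neg, arg_neg_eq_arg_sub_pi_of_im_pos h]; push_cast; ring

lemma log_neg_neg {z : ℂ} (h : z.im < 0) : log (-z) = log z + π * I := by
  simp only [Complex.log, norm_neg, arg_neg_eq_arg_add_pi_of_im_neg h]; push_cast; ring

lemma wind_in {w : ℂ} (h1 : |w.re| < 1) (h2 : |w.im| < 1) :
    ∑ k, ∫ r in (-1 : ℝ)..1, τ (k, r) / (γ (k, r) - w) = 2 * π * I := by
  rw [abs_lt] at h1 h2
  rw [Fin.sum_univ_four, seg 0 one_ne_zero, seg 1 one_ne_zero, seg 3 one_ne_zero,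
    seg 2 (u := -1) (by norm_num), c01, c12, c23, c30]
  · simp only [one_mul, neg_one_mul]
    rw [log_neg_pos (z := γ (1, 1) - w) (by simp [g1]; linarith),
      log_neg_neg (z := γ (2, 1) - w) (by simp [g2]; linarith)]
    ring
  all_goals intro r hr; simp [mem_slitPlane_iff, g0, g1, g2, g3]
  · left; linarith
  · right; linarith
  · right; linarith
  · left; linarith

lemma rotγ (k m : Fin 4) (r : ℝ) : γ (k + m, r) = I ^ (k : ℕ) * γ (m, r) := by
  simp only [γ, ← mul_assoc, ← pow_add, Fin.val_add]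
  rw [← pow_eq_pow_mod _ I_pow_four]

lemma rotτ (k m : Fin 4) (r : ℝ) : τ (k + m, r) = I ^ (k : ℕ) * τ (m, r) := by
  simp only [τ, ← mul_assoc, ← pow_add, Fin.val_add]
  rw [← pow_eq_pow_mod _ I_pow_four]

lemma mset (δ : ℝ) (z : ℂ) : MeasurableSet {p | δ < ‖γ p - z‖} :=
  (isOpen_lt continuous_const (cγ.sub continuous_const).norm).measurableSet

lemma ker_meas (z : ℂ) : Measurable fun p => τ p / (γ p - z) :=
  cτ.measurable.div (cγ.measurable.sub measurable_const)

lemma ker_bd {δ : ℝ} (hδ : 0 < δ) (z : ℂ) (p : Fin 4 × ℝ) :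
    ‖{p | δ < ‖γ p - z‖}.indicator (fun p => τ p / (γ p - z)) p‖ ≤ δ⁻¹ := by
  by_cases h : p ∈ {p | δ < ‖γ p - z‖}
  · rw [indicator_of_mem h, norm_div, nτ, one_div]
    exact inv_anti₀ hδ (le_of_lt h)
  · rw [indicator_of_notMem h, norm_zero]; positivity

lemma pv_one (k : Fin 4) {s δ : ℝ} (hδ : 0 < δ) (h1 : δ < 1 - s) (h2 : δ < 1 + s) :
    ∫ p in {p | δ < ‖γ p - γ (k, s)‖}, τ p / (γ p - γ (k, s)) ∂μ = π * I := by
  rw [← integral_indicator (mset _ _), int_eq (int_bd
    ((ker_meas _).indicator (mset _ _)).aestronglyMeasurable _ fun p _ => ker_bd hδ _ p),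
    ← Equiv.sum_comp (Equiv.addLeft k)]
  set F := {p | δ < ‖γ p - γ (0, s)‖}.indicator (fun p => τ p / (γ p - γ (0, s))) with hF
  have e : ∀ m r, {p | δ < ‖γ p - γ (k, s)‖}.indicator (fun p => τ p / (γ p - γ (k, s)))
      (Equiv.addLeft k m, r) = F (m, r) := by
    intro m r
    have := rotγ k 0 s
    rw [add_zero] at this
    simp only [hF, indicator, Equiv.coe_addLeft, mem_ofPred_eq, rotγ, rotτ, this, ← mul_sub,
      norm_mul, norm_pow, norm_I, one_pow, one_mul]
    rw [mul_div_mul_left _ _ (pow_ne_zero _ I_ne_zero)]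
  simp only [e]
  have hI : ∀ m a b, IntervalIntegrable (fun r => F (m, r)) volume a b := fun m a b =>
    (intervalIntegrable_const (c := δ⁻¹)).mono_fun'
      (((ker_meas _).indicator (mset _ _)).comp measurable_prodMk_left).aestronglyMeasurable
      (.of_forall fun r => ker_bd hδ _ _)
  have key : ∀ (m : Fin 4) (a b : ℝ), a ≤ b → (∀ r ∈ Ioo a b, δ < ‖γ (m, r) - γ (0, s)‖) →
      (∀ r ∈ Icc a b, -1 * (γ (m, r) - γ (0, s)) ∈ slitPlane) → ∫ r in a..b, F (m, r) =
      log (-1 * (γ (m, b) - γ (0, s))) - log (-1 * (γ (m, a) - γ (0, s))) := by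
    intro m a b hab h3 h4
    rw [← seg' m (by norm_num) hab h4, intervalIntegral.integral_of_le hab,
      intervalIntegral.integral_of_le hab, integral_Ioc_eq_integral_Ioo,
      integral_Ioc_eq_integral_Ioo]
    exact setIntegral_congr_fun measurableSet_Ioo fun r hr =>
      indicator_of_mem (s := {p | δ < ‖γ p - γ (0, s)‖}) (h3 r hr) _
  have mid : ∫ r in (s - δ)..(s + δ), F (0, r) = 0 := by
    rw [intervalIntegral.integral_congr (g := fun _ => 0) fun r hr => ?_]
    · simp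
    rw [uIcc_of_le (by linarith)] at hr
    refine indicator_of_notMem (s := {p | δ < ‖γ p - γ (0, s)‖}) ?_ _
    rw [mem_ofPred_eq, not_lt, show γ (0, r) - γ (0, s) = ((r - s : ℝ) : ℂ) * I by simp [γ]; ring]
    simp only [norm_mul, norm_real, norm_I, mul_one, Real.norm_eq_abs]
    exact abs_le.2 ⟨by linarith [hr.1], by linarith [hr.2]⟩
  rw [Fin.sum_univ_four, ← intervalIntegral.integral_add_adjacent_intervals (hI 0 _ (s - δ))
    (hI 0 _ _), ← intervalIntegral.integral_add_adjacent_intervals (hI 0 (s - δ) (s + δ))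
    (hI 0 _ _), mid, key 0 (-1) (s - δ) (by linarith), key 0 (s + δ) 1 (by linarith),
    key 1 (-1) 1 (by norm_num), key 2 (-1) 1 (by norm_num), key 3 (-1) 1 (by norm_num),
    c01, c12, c23, c30]
  · have e1 : -1 * (γ (0, s + δ) - γ (0, s)) = -(-1 * (γ (0, s - δ) - γ (0, s))) := by
      simp [γ]; ring
    rw [e1, log_neg_pos (by simpa [g0] using hδ)]
    ring
  · intro r hr
    refine lt_of_lt_of_le ?_ (abs_im_le_norm _)
    simp only [g0, g3, sub_im]
    exact lt_abs.2 (.inr (by linarith))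
  · intro r hr
    simp only [mem_slitPlane_iff, g0, g3]; right; simp; linarith
  · intro r hr
    refine lt_of_lt_of_le ?_ (abs_re_le_norm _)
    simp only [g0, g2, sub_re]
    exact lt_abs.2 (.inr (by linarith))
  · intro r hr
    simp only [mem_slitPlane_iff, g0, g2]; left; simp
  · intro r hr
    refine lt_of_lt_of_le ?_ (abs_im_le_norm _)
    simp only [g0, g1, sub_im]
    exact lt_abs.2 (.inl (by linarith))
  · intro r hr
    simp only [mem_slitPlane_iff, g0, g1]; right; simp; linarith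
  · intro r hr
    refine lt_of_lt_of_le ?_ (abs_im_le_norm _)
    simp only [g0, sub_im]
    exact lt_abs.2 (.inl (by linarith [hr.1]))
  · intro r hr
    simp only [mem_slitPlane_iff, g0]; right; simp; linarith [hr.1]
  · intro r hr
    refine lt_of_lt_of_le ?_ (abs_im_le_norm _)
    simp only [g0, sub_im]
    exact lt_abs.2 (.inr (by linarith [hr.2]))
  · intro r hr
    simp only [mem_slitPlane_iff, g0]; right; simp; linarith [hr.2]

end Pool.Agent.H.MP_559b1d_an
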