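import Pool.Agent.H.MP_559b1d_an.A

open Filter Topology MeasureTheory Complex Set
open scoped Real ComplexConjugate InnerProductSpace

namespace Pool.Agent.H.MP_559b1d_an

lemma ae_ne (z : ℂ) : ∀ᵐ p ∂μ, γ p ≠ z := by
  unfold μ
  refine (Measure.ae_prod_iff_ae_ae
    (isOpen_ne_fun cγ continuous_const).measurableSet).2 (.of_forall fun k => ?_)
  refine ae_restrict_of_ae ?_
  rw [ae_iff]
  refine Set.Subsingleton.measure_zero (fun r hr r' hr' => ?_) _
  simp only [mem_ofPred_eq, not_not] at hr hr'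
  have := hr.trans hr'.symm
  simpa [γ] using this

lemma ker_int {w : ℂ} {d : ℝ} (hd : 0 < d) (hw : ∀ p, p.2 ∈ Icc (-1 : ℝ) 1 → d ≤ ‖γ p - w‖) :
    Integrable (fun p => τ p / (γ p - w)) μ :=
  int_bd (ker_meas w).aestronglyMeasurable d⁻¹ fun p hp => by
    rw [norm_div, nτ, one_div]; exact inv_anti₀ hd (hw p (Ioo_subset_Icc_self hp))

lemma pv_R {w : ℂ} {d : ℝ} (hd : 0 < d) (hw : ∀ p, p.2 ∈ Icc (-1 : ℝ) 1 → d ≤ ‖γ p - w‖)
    (c : ℂ) {t : Fin 4 × ℝ} (ht : t.2 ∈ Ioo (-1 : ℝ) 1) :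
    Tendsto (fun δ : ℝ => (π * I)⁻¹ *
      ∫ p in {p | δ < ‖γ p - γ t‖}, c * (γ p - w)⁻¹ / (γ p - γ t) * τ p ∂μ) (𝓝[>] 0)
      (𝓝 ((1 - (π * I)⁻¹ * ∫ p, τ p / (γ p - w) ∂μ) * (c * (γ t - w)⁻¹))) := by
  obtain ⟨k, s⟩ := t
  have hπ : (π * I : ℂ) ≠ 0 := mul_ne_zero (by simp) I_ne_zero
  have hne : ∀ p, p.2 ∈ Ioo (-1 : ℝ) 1 → γ p - w ≠ 0 := fun p hp =>
    norm_pos_iff.1 (hd.trans_le (hw p (Ioo_subset_Icc_self hp)))
  have h1 : Tendsto (fun δ : ℝ => ∫ p in {p | δ < ‖γ p - γ (k, s)‖}, τ p / (γ p - w) ∂μ) (𝓝[>] 0)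
      (𝓝 (∫ p, τ p / (γ p - w) ∂μ)) := by
    simp only [← integral_indicator (mset _ _)]
    refine tendsto_integral_filter_of_dominated_convergence (fun p => ‖τ p / (γ p - w)‖)
      (.of_forall fun δ => ((ker_meas w).indicator (mset _ _)).aestronglyMeasurable)
      (.of_forall fun δ => .of_forall fun p => norm_indicator_le_norm_self _ _)
      (ker_int hd hw).norm ?_
    filter_upwards [ae_ne (γ (k, s))] with p hp
    refine tendsto_const_nhds.congr' ?_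
    filter_upwards [Ioo_mem_nhdsGT (norm_pos_iff.2 (sub_ne_zero.2 hp))] with δ hδ
    rw [indicator_of_mem (s := {p | δ < ‖γ p - γ (k, s)‖}) hδ.2]
  have h2 := ((h1.const_sub (π * I)).mul_const (c * (γ (k, s) - w)⁻¹)).const_mul (π * I)⁻¹
  rw [← mul_assoc, mul_sub, inv_mul_cancel₀ hπ] at h2
  refine h2.congr' ?_
  filter_upwards [Ioo_mem_nhdsGT (show (0 : ℝ) < min (1 - s) (1 + s) from
    lt_min (by linarith [ht.2]) (by linarith [ht.1]))] with δ hδ
  have hi : IntegrableOn (fun p => τ p / (γ p - γ (k, s))) {p | δ < ‖γ p - γ (k, s)‖} μ :=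
    (integrable_indicator_iff (mset _ _)).1 (int_bd
      ((ker_meas _).indicator (mset _ _)).aestronglyMeasurable _ fun p _ => ker_bd hδ.1 _ p)
  congr 1
  rw [← pv_one k hδ.1 (hδ.2.trans_le (min_le_left _ _)) (hδ.2.trans_le (min_le_right _ _)),
    ← integral_sub hi (ker_int hd hw).integrableOn, ← integral_mul_const]
  refine integral_congr_ae ?_
  filter_upwards [ae_restrict_of_ae ae_mem, ae_restrict_of_ae (ae_ne (γ (k, s)))] with p hp hq
  have := hne p hp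
  have := hne _ ht
  have := sub_ne_zero.2 hq
  field_simp
  ring

/-- scaling limit on one side -/
lemma scale {ψ K : ℝ → ℂ} {M : ℝ} {l : ℂ} (hψ : AEStronglyMeasurable ψ (volume.restrict (Ioo 0 2)))
    (hM : ∀ x ∈ Ioo (0 : ℝ) 2, ‖ψ x‖ ≤ M) (hl : Tendsto ψ (𝓝[>] 0) (𝓝 l))
    (hK : IntegrableOn K (Ioi 0)) :
    Tendsto (fun ε : ℝ => ∫ x in (0 : ℝ)..2, ψ x * (ε⁻¹ • K (ε⁻¹ * x))) (𝓝[>] 0)
      (𝓝 (l * ∫ x in Ioi 0, K x)) := by
  set φ := (Ioo (0 : ℝ) 2).indicator ψ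
  have hφ : AEStronglyMeasurable φ volume := (aestronglyMeasurable_indicator_iff
    measurableSet_Ioo).2 hψ
  have hM0 : 0 ≤ M := (norm_nonneg _).trans (hM 1 (by norm_num))
  have h1 : Tendsto (fun ε : ℝ => ∫ x in Ioi 0, φ (ε * x) * K x) (𝓝[>] 0)
      (𝓝 (∫ x in Ioi 0, l * K x)) := by
    refine tendsto_integral_filter_of_dominated_convergence (fun x => M * ‖K x‖) ?_
      (.of_forall fun ε => .of_forall fun x => ?_) (hK.norm.const_mul M) ?_
    · filter_upwards [self_mem_nhdsWithin] with ε hε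
      exact (hφ.comp_quasiMeasurePreserving
        (Measure.quasiMeasurePreserving_smul volume (ne_of_gt hε))).restrict.mul hK.1
    · rw [norm_mul]
      gcongr
      by_cases h : ε * x ∈ Ioo (0 : ℝ) 2
      · simpa [φ, h] using hM _ h
      · simpa [φ, h] using hM0
    · filter_upwards [ae_restrict_mem measurableSet_Ioi] with x hx
      refine Tendsto.mul_const _ ?_
      have h2 : Tendsto (fun ε : ℝ => ε * x) (𝓝[>] 0) (𝓝[>] 0) := by
        refine tendsto_nhdsWithin_iff.2 ⟨?_, ?_⟩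
        · simpa using ((tendsto_id (x := 𝓝 (0 : ℝ))).mul_const x).mono_left nhdsWithin_le_nhds
        · filter_upwards [self_mem_nhdsWithin] with ε hε using mul_pos (mem_Ioi.1 hε) (mem_Ioi.1 hx)
      refine Tendsto.comp (g := φ) (hl.congr' ?_) h2
      filter_upwards [Ioo_mem_nhdsGT (show (0 : ℝ) < 2 by norm_num)] with y hy
      simp [φ, hy]
  rw [integral_const_mul] at h1
  refine h1.congr' ?_
  filter_upwards [self_mem_nhdsWithin] with ε (hε : 0 < ε)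
  have h3 := integral_comp_mul_left_Ioi (fun x => φ x * K (ε⁻¹ * x)) 0 hε
  simp only [inv_mul_cancel_left₀ hε.ne', mul_zero] at h3
  rw [h3, intervalIntegral.integral_of_le (by norm_num), integral_Ioc_eq_integral_Ioo,
    ← integral_smul, ← inter_eq_right.2 (show Ioo (0 : ℝ) 2 ⊆ Ioi 0 from Ioo_subset_Ioi_self),
    ← setIntegral_indicator measurableSet_Ioo]
  refine integral_congr_ae (.of_forall fun x => ?_)
  by_cases h : x ∈ Ioo (0 : ℝ) 2 <;> simp [φ, h, mul_left_comm]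

/-- the four points `±1 ± i` -/
def P (z : ℂ) : Prop := |z.re| = 1 ∧ |z.im| = 1

lemma P.rot {z : ℂ} (h : P z) : P (-I * z) := ⟨by simpa using h.2, by simpa using h.1⟩
lemma P.cj {z : ℂ} (h : P z) : P (conj z) := ⟨by simpa using h.1, by simpa using h.2⟩

noncomputable def k (a b : ℂ) (x : ℝ) : ℂ := (x - a)⁻¹ * (x - b)⁻¹

noncomputable def K (a b : ℂ) : ℂ := ∫ x in Ioi (0 : ℝ), k a b x

lemma P.low {a : ℂ} (h : P a) (x : ℝ) : ‖((x : ℂ) - a)⁻¹‖ ^ 2 ≤ 3 * (1 + x ^ 2)⁻¹ := by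
  have h1 : a.re ^ 2 = 1 := by rw [← sq_abs, h.1, one_pow]
  have h2 : a.im ^ 2 = 1 := by rw [← sq_abs, h.2, one_pow]
  have h3 : (1 + x ^ 2) / 3 ≤ ‖(x : ℂ) - a‖ ^ 2 := by
    rw [Complex.sq_norm, normSq_apply]
    simp only [sub_re, ofReal_re, sub_im, ofReal_im]
    nlinarith [sq_nonneg (2 * x - 3 * a.re)]
  rw [norm_inv, inv_pow, mul_comm, ← div_eq_inv_mul, ← inv_div]
  exact inv_anti₀ (by positivity) h3

lemma k_int {a b : ℂ} (ha : P a) (hb : P b) : Integrable (k a b) := by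
  refine (integrable_inv_one_add_sq.const_mul 3).mono' (Measurable.aestronglyMeasurable ?_)
    (.of_forall fun x => ?_)
  · unfold k; fun_prop
  · rw [k, norm_mul]
    nlinarith [ha.low x, hb.low x, sq_nonneg (‖((x : ℂ) - a)⁻¹‖ - ‖((x : ℂ) - b)⁻¹‖)]

lemma P.far {z : ℂ} (h : P z) {ε : ℝ} (h0 : 0 < ε) (h1 : ε < 1) (r : ℝ) :
    1 ≤ ‖γ (2, r) - (1 + I - ε * z)‖ ∧ 1 ≤ ‖γ (3, r) - (1 + I - ε * z)‖ := by
  constructor
  · refine le_trans (le_abs.2 (.inr ?_)) (abs_re_le_norm _)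
    simp [g2]
    nlinarith [le_abs_self z.re, h.1]
  · refine le_trans (le_abs.2 (.inr ?_)) (abs_im_le_norm _)
    simp [g3]
    nlinarith [le_abs_self z.im, h.2]

lemma P.dist {z : ℂ} (h : P z) {ε : ℝ} (h0 : 0 < ε) (h1 : ε < 1) (p : Fin 4 × ℝ) :
    ε ≤ ‖γ p - (1 + I - ε * z)‖ := by
  obtain ⟨j, r⟩ := p
  fin_cases j
  · refine le_trans ?_ (abs_re_le_norm _)
    simp [γ, abs_mul, h.1, abs_of_pos h0]
  · refine le_trans ?_ (abs_im_le_norm _)
    simp [γ, abs_mul, h.2, abs_of_pos h0]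
  · exact h1.le.trans (h.far h0 h1 r).1
  · exact h1.le.trans (h.far h0 h1 r).2

/-- normalised Cauchy kernel concentrating at the corner `1 + i` -/
noncomputable def R (z : ℂ) (ε : ℝ) (p : Fin 4 × ℝ) : ℂ := √ε * (γ p - (1 + I - ε * z))⁻¹

lemma R_meas (z : ℂ) (ε : ℝ) : Measurable (R z ε) :=
  (cγ.measurable.sub measurable_const).inv.const_mul _

lemma R_bd {z : ℂ} {ε d : ℝ} {p : Fin 4 × ℝ} (hd : 0 < d) (h : d ≤ ‖γ p - (1 + I - ε * z)‖) :
    ‖R z ε p‖ ≤ √ε * d⁻¹ := by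
  rw [R, norm_mul, norm_inv, norm_real, Real.norm_of_nonneg (Real.sqrt_nonneg _)]
  gcongr

lemma alg {ε : ℝ} (hε : 0 < ε) {u A B : ℂ} (hu : u * conj u = 1) :
    √ε * (u * ε * A)⁻¹ * conj (√ε * (u * ε * B)⁻¹) = ε⁻¹ • (A⁻¹ * (conj B)⁻¹) := by
  have hs : (√ε : ℂ) * √ε = ε := by rw [← ofReal_mul, Real.mul_self_sqrt hε.le]
  have he : (ε : ℂ) * (ε : ℂ)⁻¹ = 1 := mul_inv_cancel₀ (ofReal_ne_zero.2 hε.ne')
  have hu' : u⁻¹ * (conj u)⁻¹ = 1 := by rw [← mul_inv, hu, inv_one]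
  simp only [map_mul, map_inv₀, conj_ofReal, mul_inv, real_smul, ofReal_inv]
  linear_combination (u⁻¹ * (conj u)⁻¹ * (ε : ℂ)⁻¹ ^ 2 * A⁻¹ * (conj B)⁻¹) * hs +
    (u⁻¹ * (conj u)⁻¹ * (ε : ℂ)⁻¹ * A⁻¹ * (conj B)⁻¹) * he + ((ε : ℂ)⁻¹ * A⁻¹ * (conj B)⁻¹) * hu'

lemma lim {θ : Fin 4 × ℝ → ℂ} {M : ℝ} {θ₀ θ₁ z z' : ℂ} (hθ : AEStronglyMeasurable θ μ)
    (hM : ∀ p, p.2 ∈ Ioo (-1 : ℝ) 1 → ‖θ p‖ ≤ M)
    (h0 : Tendsto (fun r => θ (0, r)) (𝓝[<] 1) (𝓝 θ₀))
    (h1 : Tendsto (fun r => θ (1, r)) (𝓝[>] (-1)) (𝓝 θ₁)) (hz : P z) (hz' : P z') :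
    Tendsto (fun ε : ℝ => ∫ p, θ p * (R z ε p * conj (R z' ε p)) ∂μ) (𝓝[>] 0)
      (𝓝 (θ₀ * K (-I * z) (conj (-I * z')) + θ₁ * K z (conj z'))) := by
  have hm : ∀ j, AEStronglyMeasurable (fun r => θ (j, r)) (volume.restrict (Ioo (-1) 1)) :=
    Measure.ae_count_iff.1 hθ.prodMk_left
  have hM0 : 0 ≤ M := (norm_nonneg _).trans (hM (0, 0) (by norm_num))
  have t0 := scale (ψ := fun x => θ (0, 1 - x)) (M := M) (l := θ₀) ?_
    (fun x hx => hM _ ⟨by linarith [hx.2], by linarith [hx.1]⟩) (h0.comp ?_)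
    (k_int hz.rot hz'.rot.cj).integrableOn
  rotate_left
  · have := (hm 0).comp_measurePreserving
      ((Measure.measurePreserving_sub_left volume (1 : ℝ)).restrict_preimage measurableSet_Ioo)
    norm_num at this
    exact this
  · refine tendsto_nhdsWithin_iff.2 ⟨?_, ?_⟩
    · simpa using ((tendsto_id (x := 𝓝 (0 : ℝ))).const_sub 1).mono_left nhdsWithin_le_nhds
    · filter_upwards [self_mem_nhdsWithin] with x hx
      simpa using hx
  have t1 := scale (ψ := fun x => θ (1, x - 1)) (M := M) (l := θ₁) ?_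
    (fun x hx => hM _ ⟨by linarith [hx.1], by linarith [hx.2]⟩) (h1.comp ?_)
    (k_int hz hz'.cj).integrableOn
  rotate_left
  · have := (hm 1).comp_measurePreserving
      ((measurePreserving_sub_right volume (1 : ℝ)).restrict_preimage measurableSet_Ioo)
    norm_num at this
    exact this
  · refine tendsto_nhdsWithin_iff.2 ⟨?_, ?_⟩
    · simpa using ((tendsto_id (x := 𝓝 (0 : ℝ))).sub_const 1).mono_left nhdsWithin_le_nhds
    · filter_upwards [self_mem_nhdsWithin] with x hx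
      simpa using hx
  have t2 : ∀ j, (∀ z, P z → ∀ ε : ℝ, 0 < ε → ε < 1 → ∀ r, 1 ≤ ‖γ (j, r) - (1 + I - ε * z)‖) →
      Tendsto (fun ε : ℝ => ∫ r in (-1 : ℝ)..1, θ (j, r) * (R z ε (j, r) * conj (R z' ε (j, r))))
      (𝓝[>] 0) (𝓝 0) := by
    intro j hj
    refine squeeze_zero_norm' (a := fun ε => M * ε * |(1 : ℝ) - -1|) ?_ ?_
    · filter_upwards [Ioo_mem_nhdsGT (zero_lt_one' ℝ)] with ε hε
      refine intervalIntegral.norm_integral_le_of_norm_le_const_ae ?_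
      filter_upwards [compl_mem_ae_iff.2 (measure_singleton (1 : ℝ))] with r hr1 hr
      rw [uIoc_of_le (by norm_num)] at hr
      rw [norm_mul, norm_mul, RCLike.norm_conj]
      refine le_trans ?_ (congrArg (M * ·) (Real.mul_self_sqrt hε.1.le)).le
      gcongr
      · exact hM _ ⟨hr.1, lt_of_le_of_ne hr.2 hr1⟩
      · simpa using R_bd one_pos (hj z hz ε hε.1 hε.2 r)
      · simpa using R_bd one_pos (hj z' hz' ε hε.1 hε.2 r)
    · simpa using (((tendsto_id (x := 𝓝 (0 : ℝ))).const_mul M).mul_const |(1 : ℝ) - -1|).mono_left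
        nhdsWithin_le_nhds
  have t := ((t0.add t1).add (t2 2 fun z hz ε h h' r => (hz.far h h' r).1)).add
    (t2 3 fun z hz ε h h' r => (hz.far h h' r).2)
  rw [add_zero, add_zero] at t
  refine t.congr' ?_
  filter_upwards [Ioo_mem_nhdsGT (zero_lt_one' ℝ)] with ε hε
  have he : (ε : ℂ) ≠ 0 := ofReal_ne_zero.2 hε.1.ne'
  rw [int_eq (F := fun p => θ p * (R z ε p * conj (R z' ε p))) (int_bd (hθ.mul ((R_meas z ε).mul
    (continuous_conj.measurable.comp (R_meas z' ε))).aestronglyMeasurable)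
    (M * (√ε * ε⁻¹ * (√ε * ε⁻¹))) fun p hp => ?_), Fin.sum_univ_four]
  · congr 3
    · have := intervalIntegral.integral_comp_sub_left (a := 0) (b := 2)
        (fun r => θ (0, r) * (R z ε (0, r) * conj (R z' ε (0, r)))) 1
      norm_num at this
      rw [← this]
      refine intervalIntegral.integral_congr fun x _ => ?_
      have e : ∀ z, γ (0, 1 - x) - (1 + I - ε * z) = -I * ε * ((ε⁻¹ * x : ℝ) - -I * z) := by
        intro z; simp only [γ]; push_cast; field_simp; ring_nf; simp; ring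
      simp only [R, e, k]
      rw [alg hε.1 (by simp), map_sub, conj_ofReal]
    · have := intervalIntegral.integral_comp_sub_right (a := 0) (b := 2)
        (fun r => θ (1, r) * (R z ε (1, r) * conj (R z' ε (1, r)))) 1
      norm_num at this
      rw [← this]
      refine intervalIntegral.integral_congr fun x _ => ?_
      have e : ∀ z, γ (1, x - 1) - (1 + I - ε * z) = -1 * ε * ((ε⁻¹ * x : ℝ) - z) := by
        intro z; simp only [γ]; push_cast; field_simp; ring_nf; simp; ring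
      simp only [R, e, k]
      rw [alg hε.1 (by simp), map_sub, conj_ofReal]
  · rw [norm_mul, norm_mul, RCLike.norm_conj]
    have := hε.1
    gcongr
    · exact hM p hp
    · exact R_bd hε.1 (hz.dist hε.1 hε.2 p)
    · exact R_bd hε.1 (hz'.dist hε.1 hε.2 p)

end Pool.Agent.H.MP_559b1d_an
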