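import Pool.Agent.H.MP_559b1d_an.B

open Filter Topology MeasureTheory Complex Set
open scoped Real ComplexConjugate InnerProductSpace

namespace Pool.Agent.H.MP_559b1d_an

lemma P.norm {a : ℂ} (h : P a) : 4 / 3 ≤ ‖a‖ ∧ ‖a‖ ≤ 3 / 2 := by
  have h1 : a.re ^ 2 = 1 := by rw [← sq_abs, h.1, one_pow]
  have h2 : a.im ^ 2 = 1 := by rw [← sq_abs, h.2, one_pow]
  have h3 : ‖a‖ ^ 2 = 2 := by rw [Complex.sq_norm, normSq_apply]; nlinarith
  constructor <;> nlinarith [norm_nonneg a]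

lemma K_same {a : ℂ} (h : P a) : ‖K a a‖ ≤ 3 / 4 := by
  have hne : ∀ x : ℝ, (x : ℂ) - a ≠ 0 := fun x e => by
    have := congrArg im e
    have h2 := h.2
    simp only [sub_im, ofReal_im, zero_sub, zero_im, neg_eq_zero] at this
    simp [this] at h2
  have : K a a = 0 - -((0 : ℝ) - a)⁻¹ := by
    refine integral_Ioi_of_hasDerivAt_of_tendsto' (f := fun x : ℝ => -((x : ℂ) - a)⁻¹)
      (fun x _ => ?_) (k_int h h).integrableOn ?_
    · have := (((hasDerivAt_id (x : ℂ)).sub_const a).inv (hne x)).neg.comp_ofReal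
      simpa [k, sq, neg_div, mul_inv] using! this
    · rw [← neg_zero]
      refine (tendsto_inv₀_cobounded.comp ?_).neg
      exact (tendsto_sub_const_cobounded a).comp (tendsto_norm_atTop_iff_cobounded.1
        (by simpa using tendsto_abs_atTop_atTop))
  rw [this]
  simp only [ofReal_zero, zero_sub, neg_neg, norm_inv, norm_neg]
  rw [inv_le_comm₀ (by linarith [h.norm.1]) (by norm_num)]
  linarith [h.norm.1]

lemma K_opp {a : ℂ} (h : P a) (h1 : a.re = 1) : 1 ≤ ‖K (-a) a‖ := by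
  have hn : P (-a) := ⟨by simpa using h.1, by simpa using h.2⟩
  have hi := ((k_int hn h).const_mul (conj a)).integrableOn (s := Ioi 0)
  have e : ∀ x : ℝ, (conj a * k (-a) a x).re = ((1 + (x + 1) ^ 2)⁻¹ + (1 + (x - 1) ^ 2)⁻¹) / 2 := by
    intro x
    obtain ⟨u, v⟩ := a
    have p1 : (x + 1) * (x + 1) + 1 ≠ 0 := by nlinarith [mul_self_nonneg (x + 1)]
    have p2 : (x - 1) * (x - 1) + 1 ≠ 0 := by nlinarith [mul_self_nonneg (x - 1)]
    obtain rfl : u = 1 := h1
    rcases (abs_eq zero_le_one).1 h.2 with (rfl : v = 1) | (rfl : v = -1) <;>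
      simp [k, inv_re, inv_im, normSq_apply] <;> field_simp <;> ring
  have h2 : (conj a * K (-a) a).re = (π / 2 + π / 2) / 2 - (Real.arctan (0 + 1) +
      Real.arctan (0 - 1)) / 2 := by
    rw [K, ← integral_const_mul, ← RCLike.re_to_complex, ← integral_re hi]
    simp only [RCLike.re_to_complex]
    refine integral_Ioi_of_hasDerivAt_of_tendsto'
      (f := fun x => (Real.arctan (x + 1) + Real.arctan (x - 1)) / 2) (fun x _ => ?_) hi.re ?_
    · rw [e]
      simpa using! ((((hasDerivAt_id x).add_const 1).arctan).add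
        (((hasDerivAt_id x).sub_const 1).arctan)).div_const 2
    · have := tendsto_nhds_of_tendsto_nhdsWithin Real.tendsto_arctan_atTop
      exact ((this.comp (tendsto_atTop_add_const_right _ 1 tendsto_id)).add
        (this.comp (tendsto_atTop_add_const_right _ (-1) tendsto_id))).div_const 2
  have h3 := re_le_norm (conj a * K (-a) a)
  rw [h2, norm_mul, RCLike.norm_conj] at h3
  simp only [zero_add, zero_sub, Real.arctan_neg, add_neg_cancel, zero_div, sub_zero] at h3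
  nlinarith [Real.pi_gt_three, h.norm.2, norm_nonneg (K (-a) a), norm_nonneg a]

lemma weak0 {X ι : Type*} [MeasurableSpace X] {ν : Measure X} {l : Filter ι}
    [l.IsCountablyGenerated] {f : ι → Lp ℂ 2 ν} {C : ℝ} (hC : ∀ᶠ n in l, ‖f n‖ ≤ C)
    {g : ι → X → ℂ} (hg : ∀ᶠ n in l, f n =ᵐ[ν] g n) (hm : ∀ n, Measurable (g n))
    (h0 : ∀ᵐ x ∂ν, Tendsto (fun n => g n x) l (𝓝 0)) (y : Lp ℂ 2 ν) :
    Tendsto (fun n => ⟪f n, y⟫_ℂ) l (𝓝 0) := by
  refine Metric.tendsto_nhds.2 fun η hη => ?_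
  set c := η / (2 * (C ^ 2 + 1))
  have hc : 0 < c := by positivity
  have hy : Integrable (fun x => ‖y x‖ ^ 2 / c) ν :=
    ((Lp.memLp y).integrable_norm_pow two_ne_zero).div_const c
  set G := fun n x => max (‖g n x‖ * ‖y x‖ - c * ‖g n x‖ ^ 2) 0
  have hG : ∀ n, AEStronglyMeasurable (G n) ν := fun n =>
    (((hm n).norm.aestronglyMeasurable.mul (Lp.aestronglyMeasurable y).norm).sub
      (((hm n).norm.pow_const 2).const_mul c).aestronglyMeasurable).sup aestronglyMeasurable_const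
  have hb : ∀ n x, ‖G n x‖ ≤ ‖y x‖ ^ 2 / c := fun n x => by
    rw [Real.norm_of_nonneg (le_max_right _ _), max_le_iff, le_div_iff₀ hc]
    exact ⟨by nlinarith [sq_nonneg (c * ‖g n x‖ - ‖y x‖), sq_nonneg (c * ‖g n x‖),
      sq_nonneg ‖y x‖], by positivity⟩
  have h1 : Tendsto (fun n => ∫ x, G n x ∂ν) l (𝓝 (∫ x, (0 : ℝ) ∂ν)) := by
    refine tendsto_integral_filter_of_dominated_convergence _ (.of_forall hG)
      (.of_forall fun n => .of_forall (hb n)) hy ?_
    filter_upwards [h0] with x hx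
    simpa using ((hx.norm.mul_const ‖y x‖).sub ((hx.norm.pow 2).const_mul c)).max
      (tendsto_const_nhds (x := (0 : ℝ)))
  rw [integral_zero] at h1
  filter_upwards [hC, hg, h1.eventually (gt_mem_nhds (half_pos hη))] with n e1 e2 e3
  have h2 : Integrable (fun x => ‖f n x‖ ^ 2) ν := (Lp.memLp (f n)).integrable_norm_pow two_ne_zero
  have h3 : ∫ x, ‖f n x‖ ^ 2 ∂ν = ‖f n‖ ^ 2 := by
    rw [← inner_self_eq_norm_sq (𝕜 := ℂ), L2.inner_def, ← integral_re (L2.integrable_inner _ _)]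
    simp only [inner_self_eq_norm_sq]
  have h4 : ‖⟪f n, y⟫_ℂ‖ ≤ ∫ x, c * ‖f n x‖ ^ 2 + G n x ∂ν := by
    rw [L2.inner_def]
    refine norm_integral_le_of_norm_le ((h2.const_mul c).add (hy.mono' (hG n)
      (.of_forall (hb n)))) ?_
    filter_upwards [e2] with x hx
    refine (norm_inner_le_norm _ _).trans ?_
    rw [hx]
    linarith [le_max_left (‖g n x‖ * ‖y x‖ - c * ‖g n x‖ ^ 2) 0]
  rw [integral_add (h2.const_mul c) (hy.mono' (hG n) (.of_forall (hb n))), integral_const_mul,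
    h3] at h4
  have h5 : c * ‖f n‖ ^ 2 ≤ η / 2 := by
    have : c * (C ^ 2 + 1) = η / 2 := by simp only [c]; field_simp
    nlinarith [pow_le_pow_left₀ (norm_nonneg _) e1 2]
  rw [dist_zero_right]
  linarith

lemma cpt0 {H ι : Type*} [NormedAddCommGroup H] [InnerProductSpace ℂ H] {l : Filter ι}
    {f : ι → H} {C : ℝ} (hC : ∀ᶠ n in l, ‖f n‖ ≤ C)
    (hw : ∀ y, Tendsto (fun n => ⟪f n, y⟫_ℂ) l (𝓝 0)) {T : H →L[ℂ] H} (hT : IsCompactOperator T) :
    Tendsto (fun n => ⟪f n, T (f n)⟫_ℂ) l (𝓝 0) := by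
  obtain ⟨Q, hQ, hs⟩ := IsCompactOperator.image_closedBall_subset_compact (f := T.toLinearMap) hT C
  refine Metric.tendsto_nhds.2 fun η hη => ?_
  set c := η / (2 * (|C| + 1))
  have hc : 0 < c := by positivity
  obtain ⟨t, -, ht, hcov⟩ := hQ.finite_cover_balls hc
  filter_upwards [hC, (eventually_all_finite ht).2 fun y _ =>
    (hw y).norm.eventually (gt_mem_nhds (show ‖(0 : ℂ)‖ < η / 2 by simpa using hη))] with n e1 e2
  obtain ⟨y, hy, h1⟩ := mem_iUnion₂.1 (hcov (hs ⟨f n, by simpa using e1, rfl⟩))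
  have h2 : ‖T (f n) - y‖ < c := by simpa [dist_eq_norm] using h1
  have h3 : c * (|C| + 1) = η / 2 := by simp only [c]; field_simp
  rw [dist_zero_right, ← sub_add_cancel (T (f n)) y, inner_add_right]
  have h4 := norm_inner_le_norm (𝕜 := ℂ) (f n) (T (f n) - y)
  have h5 := e2 y hy
  have h6 : ‖f n‖ * ‖T (f n) - y‖ ≤ (|C| + 1) * c := by
    gcongr; linarith [le_abs_self C]
  linarith [norm_add_le ⟪f n, T (f n) - y⟫_ℂ ⟪f n, y⟫_ℂ]

lemma fin_alg {C : ℝ} (hC : 1 ≤ C) {m : ℝ} (hm : 0 < m) {L1 L2 L3 L4 : ℂ} (h1 : ‖L1‖ ≤ C * m)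
    (h2 : ‖L2‖ ≤ C * m) (h4 : ‖L4‖ ≤ C * m) (h3 : m / 4 ≤ ‖L3‖) : ∃ η : ℂ,
    ((1 - (1 - 1 / (200 * C ^ 2) : ℝ)) * (L1 + conj η * L2) +
      (1 + (1 - 1 / (200 * C ^ 2) : ℝ)) * (η * L3 + conj η * η * L4)).re < 0 := by
  have h0 : 0 < ‖L3‖ := by linarith
  set κ : ℝ := 1 / (8 * C)
  set δ : ℝ := 1 / (200 * C ^ 2)
  have hκ : 0 < κ := by positivity
  have hδ : 0 < δ := by positivity
  have hκ1 : κ * C = 1 / 8 := by simp only [κ]; field_simp
  have hδ1 : δ * C = κ / 25 := by simp only [κ, δ]; field_simp; norm_num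
  refine ⟨-(κ / ‖L3‖ : ℝ) * conj L3, ?_⟩
  set η : ℂ := -(κ / ‖L3‖ : ℝ) * conj L3
  have n : ‖η‖ = κ := by
    simp only [η, norm_mul, norm_neg, norm_real, RCLike.norm_conj]
    rw [Real.norm_of_nonneg (by positivity), div_mul_cancel₀ _ h0.ne']
  have e3 : (η * L3).re = -(κ * ‖L3‖) := by
    rw [show η * L3 = (-(κ * ‖L3‖) : ℝ) by
      simp only [η]; rw [mul_assoc, conj_mul']; push_cast; field_simp, ofReal_re]
  have a1 : (L1 + conj η * L2).re ≤ C * m + κ * (C * m) :=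
    (re_le_norm _).trans ((norm_add_le _ _).trans (by
      rw [norm_mul, RCLike.norm_conj, n]; gcongr))
  have a2 : (conj η * η * L4).re ≤ κ * κ * (C * m) :=
    (re_le_norm _).trans (by rw [norm_mul, norm_mul, RCLike.norm_conj, n]; gcongr)
  rw [← ofReal_one, ← ofReal_sub, ← ofReal_add, add_re, re_ofReal_mul, re_ofReal_mul,
    add_re (η * L3), e3, sub_sub_cancel]
  have k1 : κ ≤ 1 / 8 := by nlinarith
  have d1 : δ ≤ 1 := by nlinarith
  have b1 : δ * (L1 + conj η * L2).re ≤ κ * m / 20 := by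
    calc _ ≤ δ * (C * m + κ * (C * m)) := by gcongr
      _ = δ * C * m * (1 + κ) := by ring
      _ ≤ κ / 25 * m * (1 + 1 / 8) := by rw [hδ1]; gcongr
      _ ≤ _ := by nlinarith [mul_pos hκ hm]
  have b2 : -(κ * ‖L3‖) + (conj η * η * L4).re ≤ -(κ * m / 8) := by
    have : κ * κ * (C * m) = κ * m / 8 := by
      rw [show κ * κ * (C * m) = κ * m * (κ * C) by ring, hκ1]; ring
    nlinarith
  nlinarith [mul_pos hκ hm]

end Pool.Agent.H.MP_559b1d_an
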