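import Pool.Agent.H.MP_559b1d_an.C

open Filter Topology MeasureTheory Complex Set
open scoped Real ComplexConjugate InnerProductSpace

namespace Pool.Agent.H.MP_559b1d_an

lemma K_le {a b : ℂ} (ha : P a) (hb : P b) : ‖K a b‖ ≤ 6 := by
  refine (norm_integral_le_of_norm_le (integrable_inv_one_add_sq.const_mul 3).integrableOn
    (.of_forall fun x => ?_)).trans ?_
  · rw [k, norm_mul]
    nlinarith [ha.low x, hb.low x, sq_nonneg (‖((x : ℂ) - a)⁻¹‖ - ‖((x : ℂ) - b)⁻¹‖)]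
  · rw [integral_const_mul, integral_Ioi_inv_one_add_sq, Real.arctan_zero]
    linarith [Real.pi_lt_four]

noncomputable def L (θ₀ θ₁ z z' : ℂ) : ℂ :=
  θ₀ * K (-I * z) (conj (-I * z')) + θ₁ * K z (conj z')

lemma L_le {z z' : ℂ} (θ₀ θ₁ : ℂ) (hz : P z) (hz' : P z') :
    ‖L θ₀ θ₁ z z'‖ ≤ 12 * max ‖θ₀‖ ‖θ₁‖ := by
  refine (norm_add_le _ _).trans ?_
  rw [norm_mul, norm_mul]
  nlinarith [K_le hz.rot hz'.rot.cj, K_le hz hz'.cj, le_max_left ‖θ₀‖ ‖θ₁‖,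
    le_max_right ‖θ₀‖ ‖θ₁‖, norm_nonneg θ₀, norm_nonneg θ₁]

lemma P1 : P (1 + I) := by simp [P]
lemma P2 : P (1 - I) := by simp [P]
lemma P3 : P (-1 + I) := by simp [P]

lemma L_ge (θ₀ θ₁ : ℂ) : max ‖θ₀‖ ‖θ₁‖ / 4 ≤ ‖L θ₀ θ₁ (1 - I) (1 + I)‖ ∨
    max ‖θ₀‖ ‖θ₁‖ / 4 ≤ ‖L θ₀ θ₁ (-1 + I) (1 + I)‖ := by
  have e1 : conj (-I * (1 + I)) = 1 + I := by simp [Complex.ext_iff]
  have e2 : conj (1 + I) = 1 - I := by simp [Complex.ext_iff]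
  have e3 : -I * (1 - I) = -(1 + I) := by simp [Complex.ext_iff]
  have e4 : -I * (-1 + I) = 1 + I := by simp [Complex.ext_iff]
  have e5 : -1 + I = -(1 - I) := by ring
  rcases le_total ‖θ₁‖ ‖θ₀‖ with h | h
  · left
    rw [L, e1, e2, e3, max_eq_left h]
    have := norm_sub_le (θ₀ * K (-(1 + I)) (1 + I) + θ₁ * K (1 - I) (1 - I))
      (θ₁ * K (1 - I) (1 - I))
    rw [add_sub_cancel_right, norm_mul, norm_mul] at this
    nlinarith [K_same P2, K_opp P1 (by simp), norm_nonneg θ₀, norm_nonneg θ₁]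
  · right
    rw [L, e1, e2, e4, e5, max_eq_right h]
    have := norm_sub_le (θ₀ * K (1 + I) (1 + I) + θ₁ * K (-(1 - I)) (1 - I))
      (θ₀ * K (1 + I) (1 + I))
    rw [add_sub_cancel_left, norm_mul, norm_mul] at this
    nlinarith [K_same P1, K_opp P2 (by simp), norm_nonneg θ₀, norm_nonneg θ₁]

open scoped Classical in
noncomputable def F (z : ℂ) (ε : ℝ) : Lp ℂ 2 μ := if h : MemLp (R z ε) 2 μ then h.toLp else 0

lemma F_ae {z : ℂ} (hz : P z) {ε : ℝ} (hε : ε ∈ Ioo (0 : ℝ) 1) : F z ε =ᵐ[μ] R z ε := by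
  have h : MemLp (R z ε) 2 μ := .of_bound (R_meas z ε).aestronglyMeasurable _
    (.of_forall fun p => R_bd hε.1 (hz.dist hε.1 hε.2 p))
  rw [F, dif_pos h]
  exact h.coeFn_toLp

lemma ev : ∀ᶠ ε in 𝓝[>] (0 : ℝ), ε ∈ Ioo (0 : ℝ) 1 := Ioo_mem_nhdsGT one_pos

lemma lim' {θ : Fin 4 × ℝ → ℂ} {M : ℝ} {θ₀ θ₁ z z' c : ℂ} (hθ : AEStronglyMeasurable θ μ)
    (hM : ∀ p, p.2 ∈ Ioo (-1 : ℝ) 1 → ‖θ p‖ ≤ M)
    (h0 : Tendsto (fun r => θ (0, r)) (𝓝[<] 1) (𝓝 θ₀))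
    (h1 : Tendsto (fun r => θ (1, r)) (𝓝[>] (-1)) (𝓝 θ₁)) (hz : P z) (hz' : P z')
    {B : Lp ℂ 2 μ →L[ℂ] Lp ℂ 2 μ}
    (hB : ∀ ε ∈ Ioo (0 : ℝ) 1, B (F z ε) =ᵐ[μ] fun p => θ p * (c * R z ε p)) :
    Tendsto (fun ε => ⟪F z' ε, B (F z ε)⟫_ℂ) (𝓝[>] 0) (𝓝 (c * L θ₀ θ₁ z z')) := by
  refine ((lim hθ hM h0 h1 hz hz').const_mul c).congr' ?_
  filter_upwards [ev] with ε hε
  rw [L2.inner_def, ← integral_const_mul]
  refine integral_congr_ae ?_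
  filter_upwards [hB ε hε, F_ae hz' hε] with p e1 e2
  rw [e1, e2, RCLike.inner_apply]
  ring

lemma F_bd {z : ℂ} (hz : P z) : ∃ C, ∀ᶠ ε in 𝓝[>] (0 : ℝ), ‖F z ε‖ ≤ C := by
  have := (lim' (θ := fun _ => 1) (M := 1) (c := 1) (B := 1) aestronglyMeasurable_const
    (by simp) tendsto_const_nhds tendsto_const_nhds hz hz
    fun ε hε => by simpa using! F_ae hz hε).norm
  refine ⟨‖1 * L 1 1 z z‖ + 2, ?_⟩
  filter_upwards [this.eventually (gt_mem_nhds (lt_add_one _))] with ε h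
  rw [one_apply_eq_self, inner_self_eq_norm_sq_to_K] at h
  simp only [norm_pow, coe_algebraMap, norm_real, norm_norm] at h
  nlinarith [norm_nonneg (F z ε), sq_nonneg (‖F z ε‖ - 1)]

lemma F_weak {z : ℂ} (hz : P z) (y : Lp ℂ 2 μ) :
    Tendsto (fun ε => ⟪F z ε, y⟫_ℂ) (𝓝[>] 0) (𝓝 0) := by
  obtain ⟨C, hC⟩ := F_bd hz
  refine weak0 hC (ev.mono fun ε => F_ae hz) (R_meas z) ?_ y
  filter_upwards [ae_ne (1 + I)] with p hp
  have : ContinuousAt (fun ε : ℝ => R z ε p) 0 := by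
    unfold R
    refine ContinuousAt.mul (by fun_prop) (ContinuousAt.inv₀ (by fun_prop) ?_)
    simpa [sub_eq_zero] using hp
  simpa [R] using! this.tendsto.mono_left nhdsWithin_le_nhds

lemma core {θ : Fin 4 × ℝ → ℂ} {M : ℝ} {θ₀ θ₁ z z' c c' : ℂ} (hθ : AEStronglyMeasurable θ μ)
    (hM : ∀ p, p.2 ∈ Ioo (-1 : ℝ) 1 → ‖θ p‖ ≤ M)
    (h0 : Tendsto (fun r => θ (0, r)) (𝓝[<] 1) (𝓝 θ₀))
    (h1 : Tendsto (fun r => θ (1, r)) (𝓝[>] (-1)) (𝓝 θ₁)) (hz : P z) (hz' : P z')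
    {B D T : Lp ℂ 2 μ →L[ℂ] Lp ℂ 2 μ}
    (hB : ∀ ε ∈ Ioo (0 : ℝ) 1, B (F z ε) =ᵐ[μ] fun p => θ p * (c * R z ε p))
    (hB' : ∀ ε ∈ Ioo (0 : ℝ) 1, B (F z' ε) =ᵐ[μ] fun p => θ p * (c' * R z' ε p))
    (hD : ∀ f, 0 ≤ (⟪f, D f⟫_ℂ).re) (hT : IsCompactOperator T)
    (e : (1 / 2 : ℂ) • (B + ContinuousLinearMap.adjoint B) = D + T) (η : ℂ) :
    0 ≤ (c * (L θ₀ θ₁ z z + conj η * L θ₀ θ₁ z z') +
      c' * (η * L θ₀ θ₁ z' z + conj η * η * L θ₀ θ₁ z' z')).re := by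
  obtain ⟨C, hC⟩ := F_bd hz
  obtain ⟨C', hC'⟩ := F_bd hz'
  set f := fun ε => F z ε + η • F z' ε
  have t1 : Tendsto (fun ε => ⟪f ε, T (f ε)⟫_ℂ) (𝓝[>] 0) (𝓝 0) := by
    refine cpt0 (C := C + ‖η‖ * C') ?_ (fun y => ?_) hT
    · filter_upwards [hC, hC'] with ε e1 e2
      refine (norm_add_le _ _).trans ?_
      rw [norm_smul]
      gcongr
    · simpa [f, inner_add_left, inner_smul_left, mul_comm] using
        (F_weak hz y).add ((F_weak hz' y).const_mul (conj η))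
  have t2 := ((lim' hθ hM h0 h1 hz hz hB).add ((lim' hθ hM h0 h1 hz hz' hB).const_mul
    (conj η))).add (((lim' hθ hM h0 h1 hz' hz hB').const_mul η).add
    ((lim' hθ hM h0 h1 hz' hz' hB').const_mul (conj η * η)))
  have t3 : Tendsto (fun ε => ⟪f ε, B (f ε)⟫_ℂ) (𝓝[>] 0) (𝓝 (c * (L θ₀ θ₁ z z +
      conj η * L θ₀ θ₁ z z') + c' * (η * L θ₀ θ₁ z' z + conj η * η * L θ₀ θ₁ z' z'))) := by
    convert t2 using 2
    · simp only [f, map_add, map_smul, inner_add_left, inner_add_right, inner_smul_left,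
        inner_smul_right]
      ring
    · ring
  refine le_of_tendsto_of_tendsto' (f := fun ε => (⟪f ε, T (f ε)⟫_ℂ).re)
    ((continuous_re.tendsto _).comp t1) ((continuous_re.tendsto _).comp t3) fun ε => ?_
  have e1 := congrArg (fun A => (⟪f ε, A (f ε)⟫_ℂ).re) e
  simp only [smul_apply, add_apply, inner_smul_right,
    inner_add_right, ContinuousLinearMap.adjoint_inner_right] at e1
  have e2 : (⟪B (f ε), f ε⟫_ℂ).re = (⟪f ε, B (f ε)⟫_ℂ).re := inner_re_symm (𝕜 := ℂ) _ _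
  have := hD (f ε)
  simp at e1 ⊢
  linarith

lemma W_in {ε : ℝ} (hε : ε ∈ Ioo (0 : ℝ) 1) :
    1 - (π * I)⁻¹ * ∫ p, τ p / (γ p - (1 + I - ε * (1 + I))) ∂μ = -1 := by
  have hπ : (π : ℂ) ≠ 0 := by simp
  rw [int_eq (ker_int hε.1 fun p _ => P1.dist hε.1 hε.2 p), wind_in]
  · field_simp; ring
  all_goals simp [abs_lt]; constructor <;> linarith [hε.1, hε.2]

lemma re_im (j : Fin 4) {r : ℝ} (hr : r ∈ Icc (-1 : ℝ) 1) :
    (γ (j, r)).re ≤ 1 ∧ (γ (j, r)).im ≤ 1 := by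
  obtain ⟨h1, h2⟩ := hr
  fin_cases j <;> simp [γ, pow_succ] <;> linarith

lemma W_out {z : ℂ} (hz : z = 1 - I ∨ z = -1 + I) {ε : ℝ} (hε : ε ∈ Ioo (0 : ℝ) 1) :
    1 - (π * I)⁻¹ * ∫ p, τ p / (γ p - (1 + I - ε * z)) ∂μ = 1 := by
  rcases hz with rfl | rfl
  · rw [int_eq (ker_int hε.1 fun p _ => P2.dist hε.1 hε.2 p), wind_out one_ne_zero]
    · simp
    · intro j r hr
      simp [mem_slitPlane_iff]
      right; linarith [(re_im j hr).2, hε.1]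
  · rw [int_eq (ker_int hε.1 fun p _ => P3.dist hε.1 hε.2 p), wind_out (u := -1) (by simp)]
    · simp
    · intro j r hr
      simp [mem_slitPlane_iff]
      left; linarith [(re_im j hr).1, hε.1]

end Pool.Agent.H.MP_559b1d_an
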